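import Mathlib
import Pool.Agent.Shared.Mod2Cx

/-! Mod 2 acyclicity of simplicial complexes: cones, adding and removing a vertex. -/

set_option autoImplicit false

namespace Pool.Agent.Lib.MP_4a6af7_co.Lin

open Pool.Agent.Shared.Mod2 Finset

variable {α : Type} [DecidableEq α]

/-- Boundary. -/
noncomputable def bd : Ch (Finset α) →ₗ[F] Ch (Finset α) := lin fun s => ∑ x ∈ s, sg (s.erase x)

/-- Cone. -/
noncomputable def cn (v : α) : Ch (Finset α) →ₗ[F] Ch (Finset α) :=
  lin fun s => if v ∈ s then 0 else sg (insert v s)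

/-- The part through `v`, with `v` removed. -/
noncomputable def dv (v : α) : Ch (Finset α) →ₗ[F] Ch (Finset α) :=
  lin fun s => if v ∈ s then sg (s.erase v) else 0

/-- The part avoiding `v`. -/
noncomputable def rs (v : α) : Ch (Finset α) →ₗ[F] Ch (Finset α) :=
  lin fun s => if v ∈ s then 0 else sg s

theorem bd_sg (s : Finset α) : bd (sg s) = ∑ x ∈ s, sg (s.erase x) := lin_sg _ _

theorem split_eq (v : α) (x : Ch (Finset α)) : rs v x + cn v (dv v x) = x := by
  refine map_eq' (L := rs v + cn v ∘ₗ dv v) (L' := LinearMap.id) (fun s => ?_) x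
  by_cases h : v ∈ s
  · simp [rs, cn, dv, h, insert_erase h]
  · simp [rs, cn, dv, h]

theorem bd_cn (v : α) (x : Ch (Finset α)) : bd (cn v x) + cn v (bd x) = x := by
  refine map_eq' (L := bd ∘ₗ cn v + cn v ∘ₗ bd) (L' := LinearMap.id) (fun s => ?_) x
  simp only [LinearMap.add_apply, LinearMap.comp_apply, LinearMap.id_apply, bd_sg, map_sum]
  by_cases h : v ∈ s
  · rw [sum_eq_single v]
    · simp [cn, h, insert_erase h]
    · intro b _ hb
      simp [cn, h, hb.symm]
    · exact fun h' => absurd h h'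
  · have h1 : cn v (sg s) = sg (insert v s) := by simp [cn, h]
    rw [h1, bd_sg, sum_insert h, erase_insert h, add_assoc, ← sum_add_distrib, sum_eq_zero, add_zero]
    intro b hb
    have hbv : v ≠ b := fun e => h (e ▸ hb)
    have h2 : cn v (sg (s.erase b)) = sg (insert v (s.erase b)) := by simp [cn, h]
    rw [h2, erase_insert_of_ne hbv, aa]

theorem dv_bd (v : α) (x : Ch (Finset α)) : dv v (bd x) = bd (dv v x) := by
  refine map_eq' (L := dv v ∘ₗ bd) (L' := bd ∘ₗ dv v) (fun s => ?_) x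
  simp only [LinearMap.comp_apply, bd_sg, map_sum]
  by_cases h : v ∈ s
  · have h1 : dv v (sg s) = sg (s.erase v) := by simp [dv, h]
    rw [h1, bd_sg, ← add_sum_erase s _ h]
    have h2 : dv v (sg (s.erase v)) = 0 := by simp [dv]
    rw [h2, zero_add]
    refine sum_congr rfl fun b hb => ?_
    have h3 : v ∈ s.erase b := mem_erase.mpr ⟨(ne_of_mem_erase hb).symm, h⟩
    simp only [dv, lin_sg, if_pos h3, erase_right_comm]
  · have h1 : dv v (sg s) = 0 := by simp [dv, h]
    rw [h1, map_zero]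
    exact sum_eq_zero fun b _ => by simp [dv, h]

theorem bd_bd (x : Ch (Finset α)) : bd (bd x) = 0 := by
  refine map_eq' (L := bd ∘ₗ bd) (L' := 0) (fun s => ?_) x
  simp only [LinearMap.comp_apply, LinearMap.zero_apply]
  induction s using Finset.induction_on with
  | empty => simp [bd_sg]
  | insert v t hv ih =>
    have h1 : sg (insert v t) = cn v (sg t) := by simp [cn, hv]
    have h2 : bd (cn v (sg t)) = sg t + cn v (bd (sg t)) := by
      have := congrArg (· + cn v (bd (sg t))) (bd_cn v (sg t))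
      simpa only [add_assoc, aa, add_zero] using this
    have h3 := bd_cn v (bd (sg t))
    rw [ih, map_zero, add_zero] at h3
    rw [h1, h2, map_add, h3, aa]

/-- Chains of faces of `Z` with `k` vertices. -/
def Gr (Z : Set (Finset α)) (k : ℕ) : Submodule F (Ch (Finset α)) := sup {s | s ∈ Z ∧ s.card = k}

/-- Cycles of faces with fewer than `r` vertices are boundaries. -/
def Acyc (r : ℕ) (Z : Set (Finset α)) : Prop :=
  ∀ k < r, ∀ x ∈ Gr Z k, bd x = 0 → ∃ y ∈ Gr Z (k + 1), bd y = x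

omit [DecidableEq α] in
theorem Gr.mono {Z Z' : Set (Finset α)} (h : Z ⊆ Z') (k : ℕ) : Gr Z k ≤ Gr Z' k :=
  sup_mono fun _ hs => ⟨h hs.1, hs.2⟩

/-- Deletion. -/
def del (v : α) (Z : Set (Finset α)) : Set (Finset α) := {s | s ∈ Z ∧ v ∉ s}

/-- Link. -/
def lk (v : α) (Z : Set (Finset α)) : Set (Finset α) := {s | v ∉ s ∧ insert v s ∈ Z}

theorem rs_mem {Z : Set (Finset α)} {k : ℕ} (v : α) {x : Ch (Finset α)} (hx : x ∈ Gr Z k) :
    rs v x ∈ Gr (del v Z) k :=
  lin_mem (fun s hs => by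
    split_ifs with h
    · exact zero_mem _
    · exact sg_mem ⟨⟨hs.1, h⟩, hs.2⟩) hx

theorem dv_mem {Z : Set (Finset α)} {k : ℕ} (v : α) {x : Ch (Finset α)} (hx : x ∈ Gr Z (k + 1)) :
    dv v x ∈ Gr (lk v Z) k :=
  lin_mem (fun s hs => by
    split_ifs with h
    · refine sg_mem ⟨⟨notMem_erase _ _, by rw [insert_erase h]; exact hs.1⟩, ?_⟩
      rw [card_erase_of_mem h, hs.2]
      rfl
    · exact zero_mem _) hx

theorem dv_zero {Z : Set (Finset α)} (v : α) {x : Ch (Finset α)} (hx : x ∈ Gr Z 0) : dv v x = 0 :=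
  map_zero' (fun s hs => by
    have : s = ∅ := card_eq_zero.mp hs.2
    simp [dv, this]) hx

theorem dv_del {Z : Set (Finset α)} {k : ℕ} (v : α) {x : Ch (Finset α)}
    (hx : x ∈ Gr (del v Z) k) : dv v x = 0 :=
  map_zero' (fun s hs => by simp [dv, hs.1.2]) hx

theorem cn_mem {Z : Set (Finset α)} {k : ℕ} (v : α) {x : Ch (Finset α)} (hx : x ∈ Gr (lk v Z) k) :
    cn v x ∈ Gr Z (k + 1) :=
  lin_mem (fun s hs => by
    rw [if_neg hs.1.1]
    exact sg_mem ⟨hs.1.2, by rw [card_insert_of_notMem hs.1.1, hs.2]⟩) hx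

theorem Acyc.cone {Z : Set (Finset α)} (v : α) (h : ∀ s ∈ Z, insert v s ∈ Z) (r : ℕ) :
    Acyc r Z := by
  intro k _ x hx h0
  refine ⟨cn v x, lin_mem (fun s hs => ?_) hx, ?_⟩
  · split_ifs with h1
    · exact zero_mem _
    · exact sg_mem ⟨h s hs.1, by rw [card_insert_of_notMem h1, hs.2]⟩
  · have := bd_cn v x
    rwa [h0, map_zero, add_zero] at this

theorem Acyc.add {Z : Set (Finset α)} (v : α) (hd : lk v Z ⊆ del v Z) {r : ℕ}
    (h1 : Acyc (r + 1) (del v Z)) (h2 : Acyc r (lk v Z)) : Acyc (r + 1) Z := by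
  intro k hk x hx h0
  have hsub : del v Z ⊆ Z := fun s hs => hs.1
  cases k with
  | zero =>
    have e := split_eq v x
    rw [dv_zero v hx, map_zero, add_zero] at e
    obtain ⟨y, hy, e'⟩ := h1 0 hk x (e ▸ rs_mem v hx) h0
    exact ⟨y, Gr.mono hsub _ hy, e'⟩
  | succ k =>
    obtain ⟨d, hd1, e1⟩ := h2 k (by omega) (dv v x) (dv_mem v hx) (by rw [← dv_bd, h0, map_zero])
    have e2 := bd_cn v d
    have e3 := split_eq v x
    have e4 : bd (cn v d) + x = rs v x + d := by
      rw [e1] at e2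
      calc bd (cn v d) + x = bd (cn v d) + (rs v x + cn v (dv v x)) := by rw [e3]
        _ = rs v x + (bd (cn v d) + cn v (dv v x)) := by abel
        _ = _ := by rw [e2]
    obtain ⟨y, hy, e5⟩ := h1 (k + 1) hk (rs v x + d) (add_mem (rs_mem v hx) (Gr.mono hd _ hd1))
      (by rw [← e4, map_add, bd_bd, h0, add_zero])
    refine ⟨y + cn v d, add_mem (Gr.mono hsub _ hy) (cn_mem v hd1), ?_⟩
    rw [map_add, e5, ← e4, add_right_comm, aa, zero_add]

theorem Acyc.rem {Z : Set (Finset α)} (v : α) (hd : lk v Z ⊆ del v Z) {r : ℕ}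
    (h1 : Acyc r Z) (h2 : Acyc r (lk v Z)) : Acyc r (del v Z) := by
  intro k hk x hx h0
  have hsub : del v Z ⊆ Z := fun s hs => hs.1
  obtain ⟨y, hy, e1⟩ := h1 k hk x (Gr.mono hsub _ hx) h0
  have e2 : bd (dv v y) = 0 := by rw [← dv_bd, e1, dv_del v hx]
  obtain ⟨d, hd1, e3⟩ := h2 k hk (dv v y) (dv_mem v hy) e2
  refine ⟨rs v y + d, add_mem (rs_mem v hy) (Gr.mono hd _ hd1), ?_⟩
  have e4 := bd_cn v (dv v y)
  rw [e2, map_zero, add_zero] at e4
  rw [map_add, e3, ← e4, ← map_add, split_eq, e1]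

end Pool.Agent.Lib.MP_4a6af7_co.Lin
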