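import Mathlib
import Pool.Agent.Lib.MP_4a6af7_co.Lin.Acyc

/-! Order complexes of families of finite sets. -/

set_option autoImplicit false

namespace Pool.Agent.Lib.MP_4a6af7_co.Lin

open Pool.Agent.Shared.Mod2 Finset

variable {E : Type} [DecidableEq E]

/-- Comparable sets. -/
def Cmp (a b : Finset E) : Prop := a ⊆ b ∨ b ⊆ a

/-- The order complex. -/
def OC (P : Set (Finset E)) : Set (Finset (Finset E)) := {c | ∀ a ∈ c, a ∈ P ∧ ∀ b ∈ c, Cmp a b}

/-- Acyclicity of the order complex. -/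
def Ac (r : ℕ) (P : Set (Finset E)) : Prop := Acyc r (OC P)

omit [DecidableEq E] in
theorem OC_mono {P Q : Set (Finset E)} (h : P ⊆ Q) : OC P ⊆ OC Q :=
  fun _ hc a ha => ⟨h (hc a ha).1, (hc a ha).2⟩

theorem del_OC (v : Finset E) (P : Set (Finset E)) : del v (OC P) = OC {a | a ∈ P ∧ a ≠ v} := by
  ext c
  constructor
  · rintro ⟨h1, h2⟩ a ha
    exact ⟨⟨(h1 a ha).1, fun e => h2 (e ▸ ha)⟩, (h1 a ha).2⟩
  · intro h
    exact ⟨fun a ha => ⟨(h a ha).1.1, (h a ha).2⟩, fun hv => (h v hv).1.2 rfl⟩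

theorem lk_OC {v : Finset E} {P : Set (Finset E)} (hv : v ∈ P) :
    lk v (OC P) = OC {a | a ∈ P ∧ a ≠ v ∧ Cmp a v} := by
  ext c
  constructor
  · rintro ⟨h1, h2⟩ a ha
    have := h2 a (mem_insert_of_mem ha)
    exact ⟨⟨this.1, fun e => h1 (e ▸ ha), this.2 v (mem_insert_self _ _)⟩,
      fun b hb => this.2 b (mem_insert_of_mem hb)⟩
  · intro h
    refine ⟨fun hc => (h v hc).1.2.1 rfl, fun a ha => ?_⟩
    rcases mem_insert.mp ha with rfl | ha'
    · refine ⟨hv, fun b hb => ?_⟩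
      rcases mem_insert.mp hb with rfl | hb'
      · exact Or.inl Subset.rfl
      · exact (h b hb').1.2.2.symm
    · refine ⟨(h a ha').1.1, fun b hb => ?_⟩
      rcases mem_insert.mp hb with rfl | hb'
      · exact (h a ha').1.2.2
      · exact (h a ha').2 b hb'

theorem Ac.zero (P : Set (Finset E)) : Ac 0 P := fun _ hk => absurd hk (Nat.not_lt_zero _)

theorem Ac.le {r r' : ℕ} {P : Set (Finset E)} (h : Ac r P) (hr : r' ≤ r) : Ac r' P :=
  fun k hk => h k (lt_of_lt_of_le hk hr)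

theorem Ac.cone {P : Set (Finset E)} {v : Finset E} (hv : v ∈ P) (h : ∀ a ∈ P, Cmp a v) (r : ℕ) :
    Ac r P := by
  refine Acyc.cone (Z := OC P) v (fun c hc a ha => ?_) r
  rcases mem_insert.mp ha with rfl | ha'
  · refine ⟨hv, fun b hb => ?_⟩
    rcases mem_insert.mp hb with rfl | hb'
    · exact Or.inl Subset.rfl
    · exact (h b (hc b hb').1).symm
  · refine ⟨(hc a ha').1, fun b hb => ?_⟩
    rcases mem_insert.mp hb with rfl | hb'
    · exact h a (hc a ha').1
    · exact (hc a ha').2 b hb'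

theorem Ac.add {P : Set (Finset E)} {v : Finset E} (hv : v ∈ P) {r : ℕ}
    (h1 : Ac (r + 1) {a | a ∈ P ∧ a ≠ v}) (h2 : Ac r {a | a ∈ P ∧ a ≠ v ∧ Cmp a v}) :
    Ac (r + 1) P := by
  refine Acyc.add v ?_ (by rwa [del_OC]) (by rwa [lk_OC hv])
  rw [del_OC, lk_OC hv]
  exact OC_mono fun a ha => ⟨ha.1, ha.2.1⟩

theorem Ac.rem {P : Set (Finset E)} {v : Finset E} (hv : v ∈ P) {r : ℕ}
    (h1 : Ac r P) (h2 : Ac r {a | a ∈ P ∧ a ≠ v ∧ Cmp a v}) : Ac r {a | a ∈ P ∧ a ≠ v} := by
  unfold Ac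
  rw [← del_OC]
  refine Acyc.rem v ?_ h1 (by rwa [lk_OC hv])
  rw [del_OC, lk_OC hv]
  exact OC_mono fun a ha => ⟨ha.1, ha.2.1⟩

/-- Adding elements whose links are cones. -/
theorem Ac.grow {P : Set (Finset E)} {r : ℕ} (h : Ac r P) (w : Finset E → ℤ) (φ : Finset E → Finset E)
    (Q : Finset (Finset E)) (h1 : ∀ x ∈ Q, x ∉ P ∧ φ x ∈ P ∧ Cmp (φ x) x ∧
      (∀ a ∈ P, Cmp a x → Cmp a (φ x)) ∧ ∀ a ∈ Q, Cmp a x → w a ≤ w x → Cmp a (φ x)) :
    Ac r {a | a ∈ P ∨ a ∈ Q} := by
  induction Q using Finset.induction_on_max_value w with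
  | empty => simpa using h
  | insert x Q hx hmax ih =>
    have ih' := ih fun y hy => by
      obtain ⟨a1, a2, a3, a4, a5⟩ := h1 y (mem_insert_of_mem hy)
      exact ⟨a1, a2, a3, a4, fun a ha => a5 a (mem_insert_of_mem ha)⟩
    obtain ⟨a1, a2, a3, a4, a5⟩ := h1 x (mem_insert_self _ _)
    cases r with
    | zero => exact Ac.zero _
    | succ r =>
      refine Ac.add (P := {a | a ∈ P ∨ a ∈ insert x Q}) (v := x) (Or.inr (mem_insert_self _ _)) ?_
        (Ac.cone (v := φ x) ?_ ?_ r)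
      rotate_left
      · exact ⟨Or.inl a2, fun e => a1 (e ▸ a2), a3⟩
      rotate_left
      · convert ih' using 1
        ext a
        simp only [Set.mem_ofPred_eq, mem_insert]
        constructor
        · rintro ⟨h2 | h2 | h2, h3⟩
          · exact Or.inl h2
          · exact absurd h2 h3
          · exact Or.inr h2
        · rintro (h2 | h2)
          · exact ⟨Or.inl h2, fun e => a1 (e ▸ h2)⟩
          · exact ⟨Or.inr (Or.inr h2), fun e => hx (e ▸ h2)⟩
      · rintro a ⟨h2 | h2, h3, h4⟩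
        · exact a4 a h2 h4
        · exact a5 a h2 h4 (hmax a ((mem_insert.mp h2).resolve_left h3))

/-- The proper subsets of `T` that contain `K` and lie in the family `N`. -/
def PK (N : Finset E → Prop) (T K : Finset E) : Set (Finset E) := {a | K ⊆ a ∧ a ⊂ T ∧ N a}

open Classical in
theorem PK.step {N : Finset E → Prop} (hN : ∀ a b, a ⊆ b → N a → N b) {T K : Finset E} {v : E}
    (hv : v ∈ T) (hK : v ∉ K) (hKT : K ⊆ T) {r : ℕ} (h1 : Ac (r + 1) (PK N T (insert v K)))
    (h2 : N (T.erase v) → Ac r (PK N (T.erase v) K)) : Ac (r + 1) (PK N T K) := by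
  have key : Ac (r + 1) {a | a ∈ PK N T K ∧ a ≠ T.erase v} := by
    have := h1.grow (fun a => (a.card : ℤ)) (insert v)
      (T.powerset.filter fun a => a ∈ PK N T K ∧ v ∉ a ∧ a ≠ T.erase v) (fun x hx => by
        obtain ⟨-, ⟨b1, b2, b3⟩, b4, b5⟩ := mem_filter.mp hx
        refine ⟨fun h => b4 (h.1 (mem_insert_self _ _)), ⟨insert_subset_insert _ b1,
          ⟨insert_subset hv b2.1, fun h => b5 ?_⟩, hN _ _ (subset_insert _ _) b3⟩,
          Or.inr (subset_insert _ _), fun a ha hc => ?_, fun a ha hc hw => ?_⟩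
        · refine Subset.antisymm (subset_erase.mpr ⟨b2.1, b4⟩) fun y hy => ?_
          exact (mem_insert.mp (h (mem_of_mem_erase hy))).resolve_left (ne_of_mem_erase hy)
        · rcases hc with hc | hc
          · exact Or.inl (hc.trans (subset_insert _ _))
          · exact Or.inr (insert_subset (ha.1 (mem_insert_self _ _)) hc)
        · rcases hc with hc | hc
          · exact Or.inl (hc.trans (subset_insert _ _))
          · rw [← eq_of_subset_of_card_le hc (by exact_mod_cast hw)]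
            exact Or.inl (subset_insert _ _))
    convert this using 1
    ext a
    simp only [Set.mem_ofPred_eq, mem_filter, mem_powerset]
    constructor
    · rintro ⟨h3, h4⟩
      by_cases h5 : v ∈ a
      · exact Or.inl ⟨insert_subset h5 h3.1, h3.2⟩
      · exact Or.inr ⟨h3.2.1.1, h3, h5, h4⟩
    · rintro (h3 | ⟨-, h3, -, h4⟩)
      · exact ⟨⟨(subset_insert _ _).trans h3.1, h3.2⟩,
          fun e => notMem_erase v T (e ▸ h3.1 (mem_insert_self _ _))⟩
      · exact ⟨h3, h4⟩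
  by_cases hn : N (T.erase v)
  · refine Ac.add (P := PK N T K) (v := T.erase v) ⟨subset_erase.mpr ⟨hKT, hK⟩, erase_ssubset hv, hn⟩ key ?_
    convert h2 hn using 1
    ext a
    constructor
    · rintro ⟨⟨b1, b2, b3⟩, b4, b5 | b5⟩
      · exact ⟨b1, ⟨b5, fun h => b4 (Subset.antisymm b5 h)⟩, b3⟩
      · refine absurd (eq_of_subset_of_card_le b5 ?_).symm b4
        have := card_lt_card b2
        rw [card_erase_of_mem hv]
        omega
    · rintro ⟨b1, b2, b3⟩
      exact ⟨⟨b1, b2.trans (erase_ssubset hv), b3⟩, b2.ne, Or.inl b2.1⟩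
  · convert key using 1
    ext a
    exact ⟨fun h => ⟨h, fun e => hn (e ▸ h.2.2)⟩, fun h => h.1⟩

theorem PK.done {N : Finset E → Prop} {T K : Finset E} (h1 : N K) (h2 : K ⊂ T) (r : ℕ) :
    Ac r (PK N T K) :=
  Ac.cone (P := PK N T K) (v := K) ⟨Subset.rfl, h2, h1⟩ (fun _ ha => Or.inr ha.1) r

open Classical in
theorem PK.spare {N : Finset E → Prop} {T K : Finset E} {f : E} (hf : f ∈ T) (hK : f ∉ K)
    (hKT : K ⊆ T) (hT : N T) (h : ∀ a, K ⊆ a → a ⊆ T → N a → N (a.erase f)) (r : ℕ) :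
    Ac r (PK N T K) := by
  have h0 : Ac r {a | a ∈ PK N T K ∧ f ∉ a} :=
    Ac.cone (P := {a | a ∈ PK N T K ∧ f ∉ a}) (v := T.erase f) ⟨⟨subset_erase.mpr ⟨hKT, hK⟩, erase_ssubset hf,
      h T hKT Subset.rfl hT⟩, notMem_erase _ _⟩
      (fun a ha => Or.inl (subset_erase.mpr ⟨ha.1.2.1.1, ha.2⟩)) r
  have := h0.grow (fun a => -(a.card : ℤ)) (fun a => a.erase f)
    (T.powerset.filter fun a => a ∈ PK N T K ∧ f ∈ a) (fun x hx => by
      obtain ⟨-, ⟨b1, b2, b3⟩, b4⟩ := mem_filter.mp hx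
      refine ⟨fun h => h.2 b4, ⟨⟨subset_erase.mpr ⟨b1, hK⟩,
        Finset.ssubset_of_subset_of_ssubset (erase_subset _ _) b2, h x b1 b2.1 b3⟩, notMem_erase _ _⟩,
        Or.inl (erase_subset _ _), fun a ha hc => ?_, fun a ha hc hw => ?_⟩
      · rcases hc with hc | hc
        · exact Or.inl (subset_erase.mpr ⟨hc, ha.2⟩)
        · exact Or.inr ((erase_subset _ _).trans hc)
      · rcases hc with hc | hc
        · rw [eq_of_subset_of_card_le hc (by omega)]
          exact Or.inr (erase_subset _ _)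
        · exact Or.inr ((erase_subset _ _).trans hc))
  convert this using 1
  ext a
  simp only [Set.mem_ofPred_eq, mem_filter, mem_powerset]
  constructor
  · intro h3
    by_cases h5 : f ∈ a
    · exact Or.inr ⟨h3.2.1.1, h3, h5⟩
    · exact Or.inl ⟨h3, h5⟩
  · rintro (h3 | h3)
    · exact h3.1
    · exact h3.2.1

/-- Truncation. -/
theorem Ac.trunc {N : Finset E → Prop} {m r : ℕ} (D : Finset (Finset E))
    (h1 : ∀ x ∈ D, ∀ a, a ⊂ x → N a → a ∈ D) (h2 : ∀ x ∈ D, N x)
    (h3 : ∀ x ∈ D, m ≤ x.card → Ac r (PK N x ∅)) (h : Ac r {a | a ∈ D}) :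
    Ac r {a | a ∈ D ∧ a.card < m} := by
  induction D using Finset.induction_on_max_value (fun a : Finset E => a.card) with
  | empty => simpa using h
  | insert x D hx hmax ih =>
    by_cases hm : x.card < m
    · convert h using 1
      ext a
      refine ⟨fun h => h.1, fun h => ⟨h, ?_⟩⟩
      rcases mem_insert.mp h with rfl | h
      · exact hm
      · exact lt_of_le_of_lt (hmax a h) hm
    · have e1 : {a | a ∈ {a | a ∈ insert x D} ∧ a ≠ x} = {a | a ∈ D} := by
        ext a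
        simp only [Set.mem_ofPred_eq, mem_insert]
        exact ⟨fun h => h.1.resolve_left h.2, fun h => ⟨Or.inr h, fun e => hx (e ▸ h)⟩⟩
      have h4 := h.rem (v := x) (mem_insert_self _ _) (by
        convert h3 x (mem_insert_self _ _) (not_lt.mp hm) using 1
        ext a
        constructor
        · rintro ⟨b1, b2, b3 | b3⟩
          · exact ⟨empty_subset _, ⟨b3, fun h => b2 (Subset.antisymm b3 h)⟩, h2 a b1⟩
          · exact absurd (eq_of_subset_of_card_le b3
              (hmax a ((mem_insert.mp b1).resolve_left b2))).symm b2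
        · rintro ⟨-, b2, b3⟩
          exact ⟨h1 x (mem_insert_self _ _) a b2 b3, b2.ne, Or.inl b2.1⟩)
      replace h4 : Ac r {a | a ∈ D} := e1 ▸ h4
      have := ih (fun y hy a ha hN => (mem_insert.mp (h1 y (mem_insert_of_mem hy) a ha hN)).resolve_left
          fun e => absurd (card_lt_card ha) (not_lt.mpr (e ▸ hmax y hy)))
        (fun y hy => h2 y (mem_insert_of_mem hy)) (fun y hy => h3 y (mem_insert_of_mem hy)) h4
      convert this using 1
      ext a
      simp only [Set.mem_ofPred_eq, mem_insert]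
      exact ⟨fun h => ⟨h.1.resolve_left fun e => hm (e ▸ h.2), h.2⟩, fun h => ⟨Or.inr h.1, h.2⟩⟩

end Pool.Agent.Lib.MP_4a6af7_co.Lin
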