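import Mathlib
import Pool.Agent.Lib.MP_4a6af7_co.Lin.Poset

/-! A Sperner type lemma for acyclic order complexes. -/

set_option autoImplicit false

namespace Pool.Agent.Lib.MP_4a6af7_co.Lin

open Pool.Agent.Shared.Mod2 Finset

variable {β ι : Type} [DecidableEq β] [DecidableEq ι]

/-- The parity of the number of faces with label set `J`. -/
noncomputable def cnt (lab : β → ι) (J : Finset ι) : Ch (Finset β) →ₗ[F] F :=
  lin fun c => if c.image lab = J then 1 else 0

theorem cnt_bd (lab : β → ι) {J : Finset ι} {i : ι} (hi : i ∉ J) {c : Finset β}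
    (h1 : c.card = J.card + 1) (h2 : ∀ x ∈ c, lab x ∈ insert i J) :
    cnt lab J (bd (sg c)) = cnt lab (insert i J) (sg c) := by
  rw [bd_sg, map_sum]
  simp only [cnt, lin_sg]
  rw [sum_boole]
  split_ifs with h
  · have hinj : Set.InjOn lab c := injOn_of_card_image_eq
      (by rw [h, card_insert_of_notMem hi, h1])
    obtain ⟨x, hx, e⟩ := mem_image.mp (h ▸ mem_insert_self i J : i ∈ c.image lab)
    have : (c.filter fun y => (c.erase y).image lab = J) = {x} := by
      ext y
      rw [mem_filter, mem_singleton]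
      constructor
      · rintro ⟨hy, e'⟩
        by_contra hne
        exact hi (e' ▸ mem_image.mpr ⟨x, mem_erase.mpr ⟨fun h => hne h.symm, hx⟩, e⟩)
      · rintro rfl
        refine ⟨hx, Subset.antisymm (fun j hj => ?_) fun j hj => ?_⟩
        · obtain ⟨z, hz, rfl⟩ := mem_image.mp hj
          exact (mem_insert.mp (h2 z (mem_of_mem_erase hz))).resolve_left fun e' =>
            ne_of_mem_erase hz (hinj (mem_of_mem_erase hz) hx (e'.trans e.symm))
        · obtain ⟨z, hz, rfl⟩ := mem_image.mp (h ▸ mem_insert_of_mem hj : j ∈ c.image lab)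
          exact mem_image.mpr ⟨z, mem_erase.mpr ⟨fun e' => hi (by rw [← e, ← e']; exact hj), hz⟩,
            rfl⟩
    rw [this]
    simp
  · rcases (c.filter fun y => (c.erase y).image lab = J).eq_empty_or_nonempty with h0 | ⟨x, hx⟩
    · rw [h0]; simp
    · obtain ⟨hx, e⟩ := mem_filter.mp hx
      have hinj : Set.InjOn lab (c.erase x) := injOn_of_card_image_eq
        (by rw [e, card_erase_of_mem hx, h1]; rfl)
      have hxJ : lab x ∈ J := (mem_insert.mp (h2 x hx)).resolve_left fun e' => h (by
        rw [← insert_erase hx, image_insert, e, e'])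
      obtain ⟨y, hy, e'⟩ := mem_image.mp (e ▸ hxJ : lab x ∈ (c.erase x).image lab)
      have hyx := ne_of_mem_erase hy
      have : (c.filter fun y => (c.erase y).image lab = J) = {x, y} := by
        ext z
        rw [mem_filter, mem_insert, mem_singleton]
        constructor
        · rintro ⟨hz, e2⟩
          by_contra hne
          push Not at hne
          have hz' : z ∈ c.erase x := mem_erase.mpr ⟨hne.1, hz⟩
          obtain ⟨w, hw, e3⟩ := mem_image.mp
            (e2 ▸ e ▸ mem_image_of_mem lab hz' : lab z ∈ (c.erase z).image lab)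
          by_cases hwx : w = x
          · exact hne.2 (hinj hz' hy (by rw [← e3, hwx, e']))
          · exact ne_of_mem_erase hw
              (hinj (mem_erase.mpr ⟨hwx, mem_of_mem_erase hw⟩) hz' e3)
        · rintro (rfl | rfl)
          · exact ⟨hx, e⟩
          · refine ⟨mem_of_mem_erase hy, Subset.antisymm (fun j hj => ?_) fun j hj => ?_⟩
            · obtain ⟨w, hw, rfl⟩ := mem_image.mp hj
              by_cases hwx : w = x
              · exact hwx ▸ hxJ
              · exact e ▸ mem_image_of_mem lab (mem_erase.mpr ⟨hwx, mem_of_mem_erase hw⟩)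
            · obtain ⟨w, hw, rfl⟩ := mem_image.mp (e ▸ hj : j ∈ (c.erase x).image lab)
              by_cases hwz : w = z
              · exact mem_image.mpr ⟨x, mem_erase.mpr ⟨hyx.symm, hx⟩, by rw [hwz, e']⟩
              · exact mem_image_of_mem lab (mem_erase.mpr ⟨hwz, mem_of_mem_erase hw⟩)
      rw [this, card_pair hyx.symm]
      rfl

theorem sum_sum_erase {C : Type} [AddCommGroup C] [Module F C] (J : Finset ι)
    (a : Finset ι → C) : ∑ i ∈ J, ∑ j ∈ J.erase i, a ((J.erase i).erase j) = 0 := by
  have := bd_bd (sg J)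
  rw [bd_sg, map_sum] at this
  simp only [bd_sg] at this
  have h := congrArg (lin a) this
  simpa only [map_sum, lin_sg, map_zero] using h

/-- Sperner's lemma for a family of acyclic complexes. -/
theorem sperner (Z : Finset ι → Set (Finset β)) (lab : β → ι) (r : ℕ)
    (hmono : ∀ J i, Z (J.erase i) ⊆ Z J) (h0 : ∅ ∈ Z ∅)
    (hac : ∀ J, J.Nonempty → Acyc r (Z J)) (hlab : ∀ J, ∀ c ∈ Z J, ∀ x ∈ c, lab x ∈ J)
    (J : Finset ι) (hJ : J.card ≤ r) : ∃ c ∈ Z J, c.image lab = J := by
  have key : ∀ k ≤ r, ∃ a : Finset ι → Ch (Finset β), ∀ J : Finset ι, J.card ≤ k →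
      a J ∈ Gr (Z J) J.card ∧ bd (a J) = ∑ i ∈ J, a (J.erase i) ∧ cnt lab J (a J) = 1 := by
    intro k
    induction k with
    | zero =>
      intro _
      refine ⟨fun _ => sg ∅, fun J hJ => ?_⟩
      obtain rfl := card_eq_zero.mp (Nat.le_zero.mp hJ)
      exact ⟨sg_mem ⟨h0, rfl⟩, by simp [bd_sg], by simp [cnt]⟩
    | succ k ih =>
      intro hk
      obtain ⟨a, ha⟩ := ih (by omega)
      have hex : ∀ J : Finset ι, ∃ y, J.card = k + 1 →
          y ∈ Gr (Z J) (k + 1) ∧ bd y = ∑ i ∈ J, a (J.erase i) := by
        intro J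
        by_cases hJ : J.card = k + 1
        · have he : ∀ i ∈ J, (J.erase i).card = k := fun i hi => by
            rw [card_erase_of_mem hi, hJ]; rfl
          obtain ⟨y, hy⟩ := hac J (card_pos.mp (by omega)) k (by omega)
            (∑ i ∈ J, a (J.erase i)) (Submodule.sum_mem _ fun i hi =>
              Gr.mono (hmono J i) k (he i hi ▸ (ha _ (he i hi).le).1)) (by
              rw [map_sum, sum_congr rfl fun i hi => (ha _ (he i hi).le).2.1]
              exact sum_sum_erase J a)
          exact ⟨y, fun _ => hy⟩
        · exact ⟨0, fun h => absurd h hJ⟩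
      choose y hy using hex
      refine ⟨fun J => if J.card = k + 1 then y J else a J, fun J hJ => ?_⟩
      have he : ∀ i ∈ J, (J.erase i).card ≠ k + 1 := fun i hi => by
        have := card_erase_lt_of_mem hi
        omega
      rw [sum_congr rfl fun i hi => if_neg (he i hi)]
      by_cases hc : J.card = k + 1
      · simp only [if_pos hc]
        obtain ⟨y1, y2⟩ := hy J hc
        refine ⟨hc ▸ y1, y2, ?_⟩
        obtain ⟨i, hi⟩ : J.Nonempty := card_pos.mp (by omega)
        have hk' : (J.erase i).card = k := by rw [card_erase_of_mem hi, hc]; rfl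
        have e1 : cnt lab (J.erase i) (bd (y J)) = cnt lab J (y J) := by
          refine map_eq (L := cnt lab (J.erase i) ∘ₗ bd) (fun c hc' => ?_) y1
          have := cnt_bd lab (notMem_erase i J) (c := c) (by rw [hc'.2, hk'])
            (by rw [insert_erase hi]; exact hlab J c hc'.1)
          rwa [insert_erase hi] at this
        rw [← e1, y2, map_sum, sum_eq_single i, (ha _ hk'.le).2.2]
        · intro j hj hji
          have hkj : (J.erase j).card = k := by rw [card_erase_of_mem hj, hc]; rfl
          refine map_zero' (fun c hc' => ?_) (ha _ hkj.le).1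
          simp only [cnt, lin_sg]
          refine if_neg fun e => ?_
          obtain ⟨x, hx, e'⟩ := mem_image.mp (e ▸ mem_erase.mpr ⟨hji, hj⟩ : j ∈ c.image lab)
          exact notMem_erase j J (e' ▸ hlab _ c hc'.1 x hx)
        · exact fun h => absurd hi h
      · simp only [if_neg hc]
        exact ha J (by omega)
  obtain ⟨a, ha⟩ := key r le_rfl
  obtain ⟨h1, -, h2⟩ := ha J hJ
  by_contra hc
  push Not at hc
  rw [map_zero' (fun c hc' => by simp only [cnt, lin_sg]; exact if_neg (hc c hc'.1)) h1] at h2
  exact zero_ne_one h2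

end Pool.Agent.Lib.MP_4a6af7_co.Lin
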