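import Mathlib
import Pool.Agent.Lib.MP_4a6af7_co.Lin.Poset
import Pool.Agent.Lib.MP_4a6af7_co.Girth

/-! The family of edge sets containing a large matching is highly acyclic when the girth is large. -/

set_option autoImplicit false

namespace Pool.Agent.Lib.MP_4a6af7_co.Lin

open Finset

variable {E V : Type} [DecidableEq E] [DecidableEq V] (π : E → Sym2 V)

/-- Matchings of labelled edges. -/
def IsMat (M : Finset E) : Prop := ∀ e ∈ M, ∀ f ∈ M, e ≠ f → ∀ v, v ∈ π e → v ∉ π f

/-- Sets containing a matching with `n` edges. -/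
def Big (n : ℕ) (T : Finset E) : Prop := ∃ M ⊆ T, IsMat π M ∧ M.card = n

/-- Covered vertices. -/
def vs (M : Finset E) : Finset V := M.biUnion fun e => (π e).toFinset

variable {π}

omit [DecidableEq E] in
theorem mem_vs {M : Finset E} {v : V} : v ∈ vs π M ↔ ∃ e ∈ M, v ∈ π e := by
  simp only [vs, mem_biUnion, Sym2.mem_toFinset]

omit [DecidableEq E] [DecidableEq V] in
theorem IsMat.mono {M M' : Finset E} (h : IsMat π M) (hs : M' ⊆ M) : IsMat π M' :=
  fun e he f hf => h e (hs he) f (hs hf)

omit [DecidableEq V] in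
theorem IsMat.insert {M : Finset E} (h : IsMat π M) {e : E} (he : ∀ f ∈ M, ∀ v, v ∈ π e → v ∉ π f) :
    IsMat π (insert e M) := by
  intro a ha b hb hab v h1 h2
  rcases mem_insert.mp ha with rfl | ha' <;> rcases mem_insert.mp hb with rfl | hb'
  · exact hab rfl
  · exact he b hb' v h1 h2
  · exact he a ha' v h2 h1
  · exact h a ha' b hb' hab v h1 h2

omit [DecidableEq E] [DecidableEq V] in
theorem Big.mono {n : ℕ} (a b : Finset E) (h : a ⊆ b) (ha : Big π n a) : Big π n b :=
  let ⟨M, h1, h2⟩ := ha; ⟨M, h1.trans h, h2⟩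

omit [DecidableEq E] in
theorem card_vs {M : Finset E} (h : IsMat π M) (hd : ∀ e ∈ M, ¬ (π e).IsDiag) :
    (vs π M).card = 2 * M.card := by
  rw [vs, card_biUnion, sum_congr rfl (fun e he => Sym2.card_toFinset_of_not_isDiag _ (hd e he)),
    sum_const, smul_eq_mul, mul_comm]
  intro e he f hf hef
  exact disjoint_left.mpr fun v h1 h2 =>
    h e he f hf hef v (Sym2.mem_toFinset.mp h1) (Sym2.mem_toFinset.mp h2)

/-- Augmentation. -/
theorem augment (k : ℕ) : ∀ M M' : Finset E, M.card = k → IsMat π M → IsMat π M' →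
    (∀ e ∈ M, ¬ (π e).IsDiag) → (∀ e ∈ M', ¬ (π e).IsDiag) → k < M'.card →
    ∃ L ⊆ M ∪ M', IsMat π L ∧ L.card = k + 1 ∧ vs π M ⊆ vs π L := by
  induction k with
  | zero =>
    intro M M' hk _ h' _ _ hlt
    obtain ⟨e, he⟩ := card_pos.mp hlt
    obtain rfl := card_eq_zero.mp hk
    exact ⟨{e}, by simpa using he, h'.mono (by simpa using he), by simp, by simp [vs]⟩
  | succ k ih =>
    intro M M' hk h h' hd hd' hlt
    obtain ⟨a, ha, ha'⟩ : ∃ a ∈ vs π M', a ∉ vs π M :=
      exists_mem_notMem_of_card_lt_card (by rw [card_vs h hd, card_vs h' hd']; omega)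
    obtain ⟨f, hf, haf⟩ := mem_vs.mp ha
    obtain ⟨b, hb⟩ := Sym2.mem_iff_exists.mp haf
    have hfM : f ∉ M := fun hc => ha' (mem_vs.mpr ⟨f, hc, haf⟩)
    by_cases hbM : b ∈ vs π M
    · obtain ⟨g, hg, hbg⟩ := mem_vs.mp hbM
      obtain ⟨c, hc⟩ := Sym2.mem_iff_exists.mp hbg
      have hbf : b ∈ π f := by rw [hb]; exact Sym2.mem_mk_right _ _
      obtain ⟨L, l1, l2, l3, l4⟩ := ih (M.erase g) (M'.erase f)
        (by rw [card_erase_of_mem hg]; omega) (h.mono (erase_subset _ _))
        (h'.mono (erase_subset _ _)) (fun e he => hd e (mem_of_mem_erase he))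
        (fun e he => hd' e (mem_of_mem_erase he)) (by rw [card_erase_of_mem hf]; omega)
      have hLb : ∀ e ∈ L, b ∉ π e := by
        intro e he hbe
        rcases mem_union.mp (l1 he) with h1 | h1
        · exact h g hg e (mem_of_mem_erase h1) (ne_of_mem_erase h1).symm b hbg hbe
        · exact h' f hf e (mem_of_mem_erase h1) (ne_of_mem_erase h1).symm b hbf hbe
      have hLa : ∀ e ∈ L, a ∉ π e := by
        intro e he hae
        rcases mem_union.mp (l1 he) with h1 | h1
        · exact ha' (mem_vs.mpr ⟨e, mem_of_mem_erase h1, hae⟩)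
        · exact h' f hf e (mem_of_mem_erase h1) (ne_of_mem_erase h1).symm a haf hae
      have hsub : L ⊆ M ∪ M' := l1.trans (union_subset_union (erase_subset _ _) (erase_subset _ _))
      have hcov : ∀ x : E, (∀ v ∈ π g, v ∈ vs π (insert x L)) → vs π M ⊆ vs π (insert x L) := by
        intro x hx v hv
        obtain ⟨e, he, hve⟩ := mem_vs.mp hv
        by_cases heg : e = g
        · exact hx v (heg ▸ hve)
        · obtain ⟨e', h1, h2⟩ := mem_vs.mp (l4 (mem_vs.mpr ⟨e, mem_erase.mpr ⟨heg, he⟩, hve⟩))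
          exact mem_vs.mpr ⟨e', mem_insert_of_mem h1, h2⟩
      by_cases hcL : c ∈ vs π L
      · refine ⟨insert f L, insert_subset (mem_union_right _ hf) hsub, l2.insert fun e he v hv => ?_,
          by rw [card_insert_of_notMem (fun hc => hLb f hc hbf), l3], hcov f fun v hv => ?_⟩
        · rw [hb, Sym2.mem_iff] at hv
          rcases hv with rfl | rfl
          · exact hLa e he
          · exact hLb e he
        · rw [hc, Sym2.mem_iff] at hv
          rcases hv with rfl | rfl
          · exact mem_vs.mpr ⟨f, mem_insert_self _ _, hbf⟩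
          · obtain ⟨e', h1, h2⟩ := mem_vs.mp hcL
            exact mem_vs.mpr ⟨e', mem_insert_of_mem h1, h2⟩
      · refine ⟨insert g L, insert_subset (mem_union_left _ hg) hsub, l2.insert fun e he v hv => ?_,
          by rw [card_insert_of_notMem (fun hc => hLb g hc hbg), l3],
          hcov g fun v hv => mem_vs.mpr ⟨g, mem_insert_self _ _, hv⟩⟩
        rw [hc, Sym2.mem_iff] at hv
        rcases hv with rfl | rfl
        · exact hLb e he
        · exact fun h1 => hcL (mem_vs.mpr ⟨e, he, h1⟩)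
    · refine ⟨insert f M, insert_subset (mem_union_right _ hf) subset_union_left,
        h.insert fun e he v hv h1 => ?_, by rw [card_insert_of_notMem hfM, hk], fun v hv => ?_⟩
      · rw [hb, Sym2.mem_iff] at hv
        rcases hv with rfl | rfl
        · exact ha' (mem_vs.mpr ⟨e, he, h1⟩)
        · exact hbM (mem_vs.mpr ⟨e, he, h1⟩)
      · obtain ⟨e, he, hve⟩ := mem_vs.mp hv
        exact mem_vs.mpr ⟨e, mem_insert_of_mem he, hve⟩

/-- The strategy that follows a matching. -/
theorem follow {n B : ℕ} (P : Finset E)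
    (hP : ∀ W : Finset V, W.card ≤ B → ∃ p ∈ P, ∃ v ∈ π p, v ∉ W) (r : ℕ) :
    ∀ (j : ℕ) (T K M : Finset E) (W : Finset V), (M \ K).card = j → (∀ e ∈ T, ¬ (π e).IsDiag) →
      (∀ p ∈ P, (p ∈ T ∧ p ∉ K) ∨ ∀ v ∈ π p, v ∈ W) → K ⊆ T → M ⊆ T → IsMat π M → M.card = n →
      vs π M ⊆ W → W.card + 2 * r ≤ B + 2 → Ac r (PK (Big π n) T K) := by
  induction r with
  | zero => intros; exact Ac.zero _
  | succ r ihr =>
    intro j
    induction j with
    | zero =>
      intro T K M W hj _ h1 h2 _ h4 h5 _ h7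
      obtain ⟨p, hp, v, hv, hvW⟩ := hP W (by omega)
      have := (h1 p hp).resolve_right fun h => hvW (h v hv)
      exact PK.done ⟨M, sdiff_eq_empty_iff_subset.mp (card_eq_zero.mp hj), h4, h5⟩
        ⟨h2, fun h => this.2 (h this.1)⟩ _
    | succ j ihj =>
      intro T K M W hj hd h1 h2 h3 h4 h5 h6 h7
      obtain ⟨e, he⟩ : (M \ K).Nonempty := card_pos.mp (by omega)
      obtain ⟨heM, heK⟩ := mem_sdiff.mp he
      have heW : ∀ v ∈ π e, v ∈ W := fun v hv => h6 (mem_vs.mpr ⟨e, heM, hv⟩)
      refine PK.step Big.mono (h3 heM) heK h2 ?_ ?_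
      · refine ihj T (insert e K) M W ?_ hd (fun p hp => ?_) (insert_subset (h3 heM) h2) h3 h4 h5
          h6 h7
        · rw [sdiff_insert, card_erase_of_mem he]; omega
        · by_cases hpe : p = e
          · exact Or.inr (hpe ▸ heW)
          · exact (h1 p hp).imp_left fun h => ⟨h.1, by simp [hpe, h.2]⟩
      · rintro ⟨M', g1, g2, g3⟩
        have hn : 0 < n := h5 ▸ card_pos.mpr ⟨e, heM⟩
        have hc : (M.erase e).card = n - 1 := by rw [card_erase_of_mem heM, h5]
        have hdM : ∀ x ∈ M.erase e, ¬ (π x).IsDiag := fun x hx => hd x (h3 (mem_of_mem_erase hx))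
        obtain ⟨L, l1, l2, l3, l4⟩ := augment (n - 1) (M.erase e) M' hc (h4.mono (erase_subset _ _))
          g2 hdM (fun x hx => hd x (mem_of_mem_erase (g1 hx))) (by omega)
        have hL : L ⊆ T.erase e := l1.trans (union_subset (erase_subset_erase _ h3) g1)
        have c1 := card_vs l2 fun x hx => hd x (mem_of_mem_erase (hL hx))
        have c2 := card_vs (h4.mono (erase_subset e _)) hdM
        have c3 := card_sdiff_add_card_eq_card l4
        refine ihr _ (T.erase e) K L (W ∪ (vs π L \ vs π (M.erase e))) rfl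
          (fun x hx => hd x (mem_of_mem_erase hx)) (fun p hp => ?_) (subset_erase.mpr ⟨h2, heK⟩) hL
          l2 (by omega) (fun v hv => ?_) ?_
        · by_cases hpe : p = e
          · exact Or.inr fun v hv => mem_union_left _ (heW v (hpe ▸ hv))
          · exact (h1 p hp).imp (fun h => ⟨mem_erase.mpr ⟨hpe, h.1⟩, h.2⟩)
              fun h v hv => mem_union_left _ (h v hv)
        · by_cases h8 : v ∈ vs π (M.erase e)
          · obtain ⟨x, hx, hvx⟩ := mem_vs.mp h8
            exact mem_union_left _ (h6 (mem_vs.mpr ⟨x, mem_of_mem_erase hx, hvx⟩))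
          · exact mem_union_right _ (mem_sdiff.mpr ⟨hv, h8⟩)
        · have := card_union_le W (vs π L \ vs π (M.erase e))
          omega

end Pool.Agent.Lib.MP_4a6af7_co.Lin
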