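import Mathlib
import Pool.Agent.Lib.MP_4a6af7_co.Lin.Game

/-! Even edge sets and girth. -/

set_option autoImplicit false

namespace Pool.Agent.Lib.MP_4a6af7_co.Lin

open Finset SimpleGraph

variable {V : Type} [DecidableEq V]

/-- The edge set has a pendant edge. -/
def Leaf (F : Finset (Sym2 V)) : Prop := ∃ u v, s(u, v) ∈ F ∧ ∀ f ∈ F, u ∈ f → f = s(u, v)

/-- All degrees are even. -/
def Ev (F : Finset (Sym2 V)) : Prop := ∀ v, Even (F.filter fun e => v ∈ e).card

theorem girth_le (G : SimpleGraph V) {P : Finset (Sym2 V)} (hP : ∀ e ∈ P, e ∈ G.edgeSet)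
    (hne : P.Nonempty) (h : Ev P) : G.egirth ≤ P.card := by
  rcases leaf_or_cycle G P hP hne with ⟨u, v, h1, h2⟩ | ⟨Q, h1, h2, -⟩
  · have h3 := h u
    have : (P.filter fun e => u ∈ e) = {s(u, v)} := by
      ext f
      rw [mem_filter, mem_singleton]
      exact ⟨fun h => h2 f h.1 h.2, fun h => h ▸ ⟨h1, Sym2.mem_mk_left _ _⟩⟩
    rw [this] at h3
    simp at h3
  · exact h2.trans (by exact_mod_cast card_le_card h1)

theorem leaf_or_even (G : SimpleGraph V) (W : Finset (Sym2 V)) (hW : ∀ e ∈ W, e ∈ G.edgeSet)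
    (hne : W.Nonempty) : Leaf W ∨ ∃ P ⊆ W, P.Nonempty ∧ Ev P := by
  set T : SimpleGraph V := fromEdgeSet (W : Set (Sym2 V)) with hT
  have hTe : T.edgeSet = (W : Set (Sym2 V)) := by
    rw [hT, edgeSet_fromEdgeSet]
    ext e
    exact ⟨fun h => h.1, fun h => ⟨h, G.not_isDiag_of_mem_edgeSet (hW e h)⟩⟩
  by_cases hac : T.IsAcyclic
  · rcases leaf_or_cycle T W (fun e he => by rw [hTe]; exact he) hne with h | ⟨Q, -, h2, -⟩
    · exact Or.inl h
    · rw [egirth_eq_top.mpr hac] at h2
      exact absurd h2 (by simp)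
  · right
    unfold IsAcyclic at hac
    push Not at hac
    obtain ⟨u, c, hc⟩ := hac
    refine ⟨c.edges.toFinset, fun e he => ?_, ?_, fun v => ?_⟩
    · have := c.edges_subset_edgeSet (List.mem_toFinset.mp he)
      rwa [hTe] at this
    · rw [← card_pos, List.toFinset_card_of_nodup hc.edges_nodup, Walk.length_edges]
      have := hc.three_le_length
      omega
    · have := (hc.isTrail.even_countP_edges_iff v).mpr fun h => absurd rfl h
      rw [List.countP_eq_length_filter,
        ← List.toFinset_card_of_nodup (hc.edges_nodup.filter _), List.toFinset_filter] at this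
      simpa using this

theorem forest_bound (G : SimpleGraph V) (k : ℕ) : ∀ (F : Finset (Sym2 V)) (W : Finset V),
    F.card = k → (∀ e ∈ F, e ∈ G.edgeSet) → (∀ e ∈ F, ∀ v ∈ e, v ∈ W) → W.Nonempty →
    W.card ≤ k → ∃ P ⊆ F, P.Nonempty ∧ Ev P := by
  induction k with
  | zero =>
    intro F W _ _ _ h1 h2
    have := card_pos.mpr h1
    omega
  | succ k ih =>
    intro F W hk hE hW h1 h2
    rcases leaf_or_even G F hE (card_pos.mp (by omega)) with ⟨u, v, h3, h4⟩ | h
    · have huv : u ≠ v := G.ne_of_adj (hE _ h3)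
      have hu : u ∈ W := hW _ h3 u (Sym2.mem_mk_left _ _)
      obtain ⟨P, p1, p2⟩ := ih (F.erase s(u, v)) (W.erase u) (by rw [card_erase_of_mem h3]; omega)
        (fun e he => hE e (mem_of_mem_erase he))
        (fun e he x hx => mem_erase.mpr ⟨fun e' => ne_of_mem_erase he
          (h4 e (mem_of_mem_erase he) (e' ▸ hx)), hW e (mem_of_mem_erase he) x hx⟩)
        ⟨v, mem_erase.mpr ⟨huv.symm, hW _ h3 v (Sym2.mem_mk_right _ _)⟩⟩
        (by rw [card_erase_of_mem hu]; omega)
      exact ⟨P, p1.trans (erase_subset _ _), p2⟩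
    · exact h

theorem two_even (G : SimpleGraph V) {g : ℕ} (hg : (g : ℕ∞) ≤ G.egirth)
    {F A B : Finset (Sym2 V)} (hE : ∀ e ∈ F, e ∈ G.edgeSet) (hA : A ⊆ F) (hB : B ⊆ F)
    (a1 : A.Nonempty) (a2 : Ev A) (b1 : B.Nonempty) (b2 : Ev B) (hne : A ≠ B) :
    3 * g ≤ 2 * F.card := by
  have h1 : g ≤ A.card := by
    exact_mod_cast hg.trans (girth_le G (fun e he => hE e (hA he)) a1 a2)
  have h2 : g ≤ B.card := by
    exact_mod_cast hg.trans (girth_le G (fun e he => hE e (hB he)) b1 b2)
  have hd : Disjoint (A \ B) (B \ A) := disjoint_sdiff_sdiff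
  have h3 : g ≤ (A \ B ∪ B \ A).card := by
    refine Nat.cast_le (α := ℕ∞).mp (hg.trans (girth_le G (fun e he => ?_) ?_ fun v => ?_))
    · rcases mem_union.mp he with h | h
      · exact hE e (hA (mem_sdiff.mp h).1)
      · exact hE e (hB (mem_sdiff.mp h).1)
    · rw [nonempty_iff_ne_empty]
      intro h
      rw [union_eq_empty, sdiff_eq_empty_iff_subset, sdiff_eq_empty_iff_subset] at h
      exact hne (Subset.antisymm h.1 h.2)
    · have e1 := card_sdiff_add_card_inter (A.filter fun e => v ∈ e) (B.filter fun e => v ∈ e)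
      have e2 := card_sdiff_add_card_inter (B.filter fun e => v ∈ e) (A.filter fun e => v ∈ e)
      have e3 : ((A \ B ∪ B \ A).filter fun e => v ∈ e) =
          (A.filter fun e => v ∈ e) \ (B.filter fun e => v ∈ e) ∪
            (B.filter fun e => v ∈ e) \ (A.filter fun e => v ∈ e) := by
        ext e
        simp only [mem_filter, mem_union, mem_sdiff]
        tauto
      rw [e3, card_union_of_disjoint disjoint_sdiff_sdiff]
      rw [inter_comm] at e2
      obtain ⟨x, hx⟩ := a2 v
      obtain ⟨y, hy⟩ := b2 v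
      rw [Nat.even_iff]
      omega
  rw [card_union_of_disjoint hd] at h3
  have e1 := card_sdiff_add_card_inter A B
  have e2 := card_sdiff_add_card_inter B A
  have e3 := card_union_add_card_inter A B
  have e4 := card_le_card (union_subset hA hB)
  rw [inter_comm] at e2
  omega

/-- A small edge set without pendant edges is a single cycle. -/
theorem single_cycle (G : SimpleGraph V) {g : ℕ} (hg : (g : ℕ∞) ≤ G.egirth)
    {F : Finset (Sym2 V)} (hE : ∀ e ∈ F, e ∈ G.edgeSet) (hne : F.Nonempty) (hl : ¬ Leaf F)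
    (hs : 2 * ((vs id F).card + 1) < 3 * g) :
    g ≤ F.card ∧ ∀ c ∈ F, ∀ S ⊆ F.erase c, S.Nonempty → Leaf S := by
  set W := vs id F with hW
  have hin : ∀ e ∈ F, ∀ v ∈ e, v ∈ W := fun e he v hv => mem_vs.mpr ⟨e, he, hv⟩
  have hWne : W.Nonempty := by
    obtain ⟨e, he⟩ := hne
    exact ⟨e.out.1, hin e he _ (Sym2.out_fst_mem e)⟩
  have h1 : F.card ≤ W.card := by
    by_contra hc
    obtain ⟨F', f1, f2⟩ := exists_subset_card_eq (s := F) (n := W.card + 1) (by omega)
    obtain ⟨A, a0, a1, a2⟩ := forest_bound G _ F' W f2 (fun e he => hE e (f1 he))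
      (fun e he => hin e (f1 he)) hWne (by omega)
    obtain ⟨c, hc⟩ := a1
    obtain ⟨B, b0, b1, b2⟩ := forest_bound G W.card (F'.erase c) W
      (by rw [card_erase_of_mem (a0 hc)]; omega) (fun e he => hE e (f1 (mem_of_mem_erase he)))
      (fun e he => hin e (f1 (mem_of_mem_erase he))) hWne le_rfl
    have := two_even G hg (fun e he => hE e (f1 he)) a0 (b0.trans (erase_subset _ _)) ⟨c, hc⟩ a2
      b1 b2 fun e => notMem_erase c F' (b0 (e ▸ hc))
    omega
  have h2 : ∀ u ∈ W, 2 ≤ (F.filter fun e => u ∈ e).card := by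
    intro u hu
    obtain ⟨e, he, hue⟩ := mem_vs.mp hu
    obtain ⟨v, rfl⟩ := Sym2.mem_iff_exists.mp (show u ∈ e from hue)
    by_contra hc
    refine hl ⟨u, v, he, fun f hf huf => ?_⟩
    exact card_le_one.mp (by omega : (F.filter fun e => u ∈ e).card ≤ 1) f
      (mem_filter.mpr ⟨hf, huf⟩) _ (mem_filter.mpr ⟨he, Sym2.mem_mk_left _ _⟩)
  have h3 : ∑ u ∈ W, (F.filter fun e => u ∈ e).card = 2 * F.card := by
    have := sum_card_bipartiteAbove_eq_sum_card_bipartiteBelow (s := F) (t := W)
      (fun e v => v ∈ e)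
    rw [sum_congr rfl (g := fun _ => 2) fun e he => by
      rw [← Sym2.card_toFinset_of_not_isDiag _ (G.not_isDiag_of_mem_edgeSet (hE e he))]
      congr 1
      ext v
      rw [mem_bipartiteAbove, Sym2.mem_toFinset]
      exact ⟨fun h => h.2, fun h => ⟨hin e he v h, h⟩⟩, sum_const, smul_eq_mul, mul_comm] at this
    exact this.symm
  have h4 : Ev F := by
    intro u
    by_cases hu : u ∈ W
    · have h5 : ∑ _u ∈ W, 2 = ∑ u ∈ W, (F.filter fun e => u ∈ e).card := by
        refine le_antisymm (sum_le_sum h2) ?_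
        rw [h3, sum_const, smul_eq_mul]
        omega
      rw [← (sum_eq_sum_iff_of_le h2).mp h5 u hu]
      exact even_two
    · rw [filter_eq_empty_iff.mpr fun e he h => hu (hin e he u h)]
      simp
  refine ⟨by exact_mod_cast hg.trans (girth_le G hE hne h4), fun c hc S hS hSne => ?_⟩
  rcases leaf_or_even G S (fun e he => hE e (mem_of_mem_erase (hS he))) hSne with h | ⟨B, b0, b1, b2⟩
  · exact h
  · have := two_even G hg hE Subset.rfl ((b0.trans hS).trans (erase_subset _ _)) hne h4 b1 b2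
      fun e => notMem_erase c F (hS (b0 (e ▸ hc)))
    omega

end Pool.Agent.Lib.MP_4a6af7_co.Lin
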