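import Mathlib
import Pool.Agent.Lib.MP_4a6af7_co.Lin.Even

/-! Forests and single cycles. -/

set_option autoImplicit false

namespace Pool.Agent.Lib.MP_4a6af7_co.Lin

open Finset

variable {E V : Type} [DecidableEq E] [DecidableEq V] {π : E → Sym2 V}

omit [DecidableEq E] [DecidableEq V] in
theorem leaf_meet {A : Finset E} {e : E} {u v : V} (hπ : π e = s(u, v))
    (hl : ∀ g ∈ A, u ∈ π g → π g = s(u, v)) {f : E} (hf : f ∈ A) (hx : ∃ x, x ∈ π e ∧ x ∈ π f) :
    v ∈ π f := by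
  obtain ⟨x, x1, x2⟩ := hx
  rw [hπ, Sym2.mem_iff] at x1
  rcases x1 with rfl | rfl
  · rw [hl f hf x2]; exact Sym2.mem_mk_right _ _
  · exact x2

omit [DecidableEq V] in
theorem leaf_swap {A a : Finset E} {e f : E} {u v : V} {m : ℕ} (hπ : π e = s(u, v))
    (hl : ∀ g ∈ A, u ∈ π g → π g = s(u, v)) (hea : e ∈ a) (heA : e ∈ A) (hf : f ∈ A) (hef : e ≠ f)
    (hx : ∃ x, x ∈ π e ∧ x ∈ π f) (h : Big π m (a ∩ A)) : Big π m (a.erase f ∩ A) := by
  obtain ⟨M, m1, m2, m3⟩ := h
  have hs : M.erase f ⊆ a.erase f ∩ A := fun g hg =>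
    mem_inter.mpr ⟨mem_erase.mpr ⟨ne_of_mem_erase hg, (mem_inter.mp (m1 (mem_of_mem_erase hg))).1⟩,
      (mem_inter.mp (m1 (mem_of_mem_erase hg))).2⟩
  by_cases hfM : f ∈ M
  · have hnm : ∀ g ∈ M.erase f, ∀ x, x ∈ π e → x ∉ π g := fun g hg x x1 x2 =>
      m2 f hfM g (mem_of_mem_erase hg) (ne_of_mem_erase hg).symm v (leaf_meet hπ hl hf hx)
        (leaf_meet hπ hl (mem_inter.mp (hs hg)).2 ⟨x, x1, x2⟩)
    have hu : u ∈ π e := by rw [hπ]; exact Sym2.mem_mk_left _ _
    refine ⟨insert e (M.erase f), insert_subset (mem_inter.mpr ⟨mem_erase.mpr ⟨hef, hea⟩, heA⟩) hs,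
      (m2.mono (erase_subset _ _)).insert hnm, ?_⟩
    rw [card_insert_of_notMem fun hc => hnm e hc u hu hu, card_erase_add_one hfM, m3]
  · exact ⟨M, by rwa [erase_eq_of_notMem hfM] at hs, m2, m3⟩

omit [DecidableEq V] in
open Classical in
theorem leaf_drop {A a : Finset E} {e : E} {u v : V} {m : ℕ} (hπ : π e = s(u, v))
    (hl : ∀ g ∈ A, u ∈ π g → π g = s(u, v)) (hea : e ∈ a) (heA : e ∈ A) :
    Big π (m + 1) (a ∩ A) ↔ Big π m (a ∩ A.filter fun f => ¬ ∃ x, x ∈ π e ∧ x ∈ π f) := by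
  have hu : u ∈ π e := by rw [hπ]; exact Sym2.mem_mk_left _ _
  constructor
  · rintro ⟨M, m1, m2, m3⟩
    have h1 : (M.filter fun f => ∃ x, x ∈ π e ∧ x ∈ π f).card ≤ 1 := card_le_one.mpr fun f hf g hg => by
      by_contra hfg
      obtain ⟨f1, f2⟩ := mem_filter.mp hf
      obtain ⟨g1, g2⟩ := mem_filter.mp hg
      exact m2 f f1 g g1 hfg v (leaf_meet hπ hl (mem_inter.mp (m1 f1)).2 f2)
        (leaf_meet hπ hl (mem_inter.mp (m1 g1)).2 g2)
    have h2 := card_filter_add_card_filter_not (s := M) fun f => ∃ x, x ∈ π e ∧ x ∈ π f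
    obtain ⟨L, l1, l2⟩ := exists_subset_card_eq
      (s := M.filter fun f => ¬ ∃ x, x ∈ π e ∧ x ∈ π f) (n := m) (by omega)
    refine ⟨L, fun f hf => ?_, m2.mono (l1.trans (filter_subset _ _)), l2⟩
    obtain ⟨f1, f2⟩ := mem_filter.mp (l1 hf)
    exact mem_inter.mpr ⟨(mem_inter.mp (m1 f1)).1, mem_filter.mpr ⟨(mem_inter.mp (m1 f1)).2, f2⟩⟩
  · rintro ⟨M, m1, m2, m3⟩
    have hnm : ∀ g ∈ M, ∀ x, x ∈ π e → x ∉ π g := fun g hg x x1 x2 =>
      (mem_filter.mp (mem_inter.mp (m1 hg)).2).2 ⟨x, x1, x2⟩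
    refine ⟨insert e M, insert_subset (mem_inter.mpr ⟨hea, heA⟩)
      (m1.trans (inter_subset_inter Subset.rfl (filter_subset _ _))), m2.insert hnm, ?_⟩
    rw [card_insert_of_notMem fun hc => hnm e hc u hu hu, m3]

open Classical in
/-- Forests. -/
theorem forest_ac {N : Finset E → Prop} (hN : ∀ a b, a ⊆ b → N a → N b) (s : ℕ) :
    ∀ (T K A : Finset E) (m : ℕ), A.card ≤ s → A ⊆ T → T \ A ⊆ K → K ⊆ T →
      (∀ a, K ⊆ a → a ⊆ T → (N a ↔ Big π m (a ∩ A))) →
      (∀ S ⊆ A.image π, S.Nonempty → Leaf S) → N T → Ac ((T \ K).card - m) (PK N T K) := by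
  have h0 : ∀ (T K A : Finset E), K ⊆ T → (∀ a, K ⊆ a → a ⊆ T → (N a ↔ Big π 0 (a ∩ A))) →
      Ac ((T \ K).card - 0) (PK N T K) := by
    intro T K A h1 h2
    rcases (T \ K).eq_empty_or_nonempty with h | ⟨x, hx⟩
    · rw [h]; exact Ac.zero _
    · exact PK.done ((h2 K Subset.rfl h1).mpr ⟨∅, empty_subset _, by simp [IsMat], rfl⟩)
        ⟨h1, fun h => (mem_sdiff.mp hx).2 (h (mem_sdiff.mp hx).1)⟩ _
  induction s with
  | zero =>
    intro T K A m hs _ _ h3 h4 _ hT
    obtain ⟨M, m1, -, m3⟩ := (h4 T h3 Subset.rfl).mp hT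
    have := card_le_card (m1.trans inter_subset_right)
    obtain rfl : m = 0 := by omega
    exact h0 T K A h3 h4
  | succ s ih =>
    intro T K A m hs h1 h2 h3 h4 h5 hT
    rcases m with _ | m
    · exact h0 T K A h3 h4
    obtain ⟨M, m1, -, m3⟩ := (h4 T h3 Subset.rfl).mp hT
    have hA : A.Nonempty := (card_pos.mp (by omega : 0 < M.card)).mono (m1.trans inter_subset_right)
    obtain ⟨u, v, huv, hleaf⟩ := h5 _ Subset.rfl (hA.image π)
    obtain ⟨e, heA, hπ⟩ := mem_image.mp huv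
    have hl : ∀ g ∈ A, u ∈ π g → π g = s(u, v) := fun g hg => hleaf _ (mem_image_of_mem π hg)
    have hu : u ∈ π e := by rw [hπ]; exact Sym2.mem_mk_left _ _
    have key : ∀ K' : Finset E, K ⊆ K' → K' ⊆ T → e ∈ K' → Ac ((T \ K').card - m) (PK N T K') := by
      intro K' k1 k2 k3
      by_cases hsp : ∃ f ∈ A, f ∉ K' ∧ ∃ x, x ∈ π e ∧ x ∈ π f
      · obtain ⟨f, f1, f2, f3⟩ := hsp
        refine PK.spare (h1 f1) f2 k2 hT (fun a a1 a2 a3 => ?_) _
        refine (h4 _ (k1.trans (subset_erase.mpr ⟨a1, f2⟩)) ((erase_subset _ _).trans a2)).mpr ?_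
        exact leaf_swap hπ hl (a1 k3) heA f1 (fun h => f2 (h ▸ k3)) f3
          ((h4 a (k1.trans a1) a2).mp a3)
      · refine ih T K' (A.filter fun f => ¬ ∃ x, x ∈ π e ∧ x ∈ π f) m ?_
          ((filter_subset _ _).trans h1) (fun f hf => ?_) k2 (fun a a1 a2 => ?_)
          (fun S hS => h5 S (hS.trans (image_subset_image (filter_subset _ _)))) hT
        · have : (A.filter fun f => ¬ ∃ x, x ∈ π e ∧ x ∈ π f).card < A.card :=
            card_lt_card ⟨filter_subset _ _, fun h => (mem_filter.mp (h heA)).2 ⟨u, hu, hu⟩⟩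
          omega
        · obtain ⟨f1, f2⟩ := mem_sdiff.mp hf
          by_contra hc
          by_cases hfA : f ∈ A
          · exact f2 (mem_filter.mpr ⟨hfA, fun h => hsp ⟨f, hfA, hc, h⟩⟩)
          · exact hc (k1 (h2 (mem_sdiff.mpr ⟨f1, hfA⟩)))
        · rw [h4 a (k1.trans a1) a2]
          exact leaf_drop hπ hl (a1 k3) heA
    by_cases heK : e ∈ K
    · exact (key K Subset.rfl h3 heK).le (by omega)
    have hc : e ∈ T \ K := mem_sdiff.mpr ⟨h1 heA, heK⟩
    cases hr : (T \ K).card - (m + 1) with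
    | zero => exact Ac.zero _
    | succ r =>
      refine PK.step hN (h1 heA) heK h3 ((key _ (subset_insert _ _) (insert_subset (h1 heA) h3)
        (mem_insert_self _ _)).le ?_) fun hb => ?_
      · rw [sdiff_insert, card_erase_of_mem hc]; omega
      · refine (ih (T.erase e) K (A.erase e) (m + 1) (by rw [card_erase_of_mem heA]; omega)
          (erase_subset_erase _ h1) (fun f hf => ?_) (subset_erase.mpr ⟨h3, heK⟩) (fun a a1 a2 => ?_)
          (fun S hS => h5 S (hS.trans (image_subset_image (erase_subset _ _)))) hb).le ?_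
        · obtain ⟨f1, f2⟩ := mem_sdiff.mp hf
          exact h2 (mem_sdiff.mpr ⟨mem_of_mem_erase f1,
            fun h => f2 (mem_erase.mpr ⟨ne_of_mem_erase f1, h⟩)⟩)
        · rw [h4 a a1 (a2.trans (erase_subset _ _)), inter_erase,
            erase_eq_of_notMem fun h => notMem_erase e T (a2 (mem_inter.mp h).1)]
        · rw [erase_sdiff_comm, card_erase_of_mem hc]; omega

/-- A single long cycle. -/
theorem cycle_ac {n q g : ℕ} (hg : 2 * n + q ≤ g + 1) (hn : n < g) (K₀ : Finset E)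
    (F : Finset (Sym2 V)) (hF : g ≤ F.card)
    (hF' : ∀ c ∈ F, ∀ S ⊆ F.erase c, S.Nonempty → Leaf S) (s : ℕ) :
    ∀ T K M : Finset E, (T \ K).card = s → (T \ K₀).image π = F →
      (∀ e ∈ K₀, ∀ f ∈ T, e ≠ f → ∀ v, v ∈ π e → v ∉ π f) → K₀ ⊆ K → K ⊆ T → K ⊆ K₀ ∪ M →
      M ⊆ T → IsMat π M → M.card = n → Ac q (PK (Big π n) T K) := by
  have hcount : ∀ T M : Finset E, (T \ K₀).image π = F → M.card = n → g ≤ ((T \ K₀) \ M).card + n := by
    intro T M h1 h2
    have := card_image_le (s := T \ K₀) (f := π)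
    have := le_card_sdiff M (T \ K₀)
    rw [h1] at *
    omega
  induction s with
  | zero =>
    intro T K M hs h1 _ _ _ h5 _ _ h8
    have h9 := hcount T M h1 h8
    have : (T \ K₀) \ M ⊆ T \ K := fun x hx => by
      obtain ⟨x1, x2⟩ := mem_sdiff.mp hx
      exact mem_sdiff.mpr ⟨(mem_sdiff.mp x1).1,
        fun h => (mem_union.mp (h5 h)).elim (mem_sdiff.mp x1).2 x2⟩
    have := card_le_card this
    omega
  | succ s ih =>
    intro T K M hs h1 h2 h3 h4 h5 h6 h7 h8
    rcases (M \ K).eq_empty_or_nonempty with h | ⟨e, he⟩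
    · obtain ⟨x, hx⟩ : (T \ K).Nonempty := card_pos.mp (by omega)
      exact PK.done ⟨M, sdiff_eq_empty_iff_subset.mp h, h7, h8⟩
        ⟨h4, fun h => (mem_sdiff.mp hx).2 (h (mem_sdiff.mp hx).1)⟩ _
    obtain ⟨heM, heK⟩ := mem_sdiff.mp he
    have hc : e ∈ T \ K := mem_sdiff.mpr ⟨h6 heM, heK⟩
    have he0 : e ∈ T \ K₀ := mem_sdiff.mpr ⟨h6 heM, fun h => heK (h3 h)⟩
    rcases q with _ | q
    · exact Ac.zero _
    refine PK.step Big.mono (h6 heM) heK h4 ?_ fun hb => ?_
    · exact ih T (insert e K) M (by rw [sdiff_insert, card_erase_of_mem hc]; omega) h1 h2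
        (h3.trans (subset_insert _ _)) (insert_subset (h6 heM) h4)
        (insert_subset (mem_union_right _ heM) h5) h6 h7 h8
    by_cases htw : ∃ e' ∈ T \ K₀, e' ≠ e ∧ π e' = π e
    · obtain ⟨e', e1, e2, e3⟩ := htw
      have hnm : ∀ f ∈ M.erase e, ∀ v, v ∈ π e' → v ∉ π f := fun f hf v hv =>
        h7 e heM f (mem_of_mem_erase hf) (ne_of_mem_erase hf).symm v (e3 ▸ hv)
      refine (ih (T.erase e) K (insert e' (M.erase e))
        (by rw [erase_sdiff_comm, card_erase_of_mem hc]; omega) ?_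
        (fun x hx f hf => h2 x hx f (mem_of_mem_erase hf)) h3 (subset_erase.mpr ⟨h4, heK⟩)
        (fun x hx => ?_) (insert_subset (mem_erase.mpr ⟨e2, (mem_sdiff.mp e1).1⟩)
          (erase_subset_erase _ h6)) ((h7.mono (erase_subset _ _)).insert hnm) ?_).le (by omega)
      · rw [← h1, erase_sdiff_comm]
        refine Subset.antisymm (image_subset_image (erase_subset _ _)) fun c hc => ?_
        obtain ⟨x, hx, rfl⟩ := mem_image.mp hc
        by_cases hxe : x = e
        · exact mem_image.mpr ⟨e', mem_erase.mpr ⟨e2, e1⟩, by rw [e3, hxe]⟩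
        · exact mem_image_of_mem π (mem_erase.mpr ⟨hxe, hx⟩)
      · rcases mem_union.mp (h5 hx) with h | h
        · exact mem_union_left _ h
        · exact mem_union_right _ (mem_insert_of_mem (mem_erase.mpr ⟨fun h' => heK (h' ▸ hx), h⟩))
      · rw [card_insert_of_notMem fun h => hnm e' h _ (Sym2.out_fst_mem _) (Sym2.out_fst_mem _),
          card_erase_add_one heM, h8]
    · refine (forest_ac (π := π) Big.mono _ (T.erase e) K (T.erase e) n le_rfl Subset.rfl (by simp)
        (subset_erase.mpr ⟨h4, heK⟩) (fun a _ a2 => by rw [inter_eq_left.mpr a2])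
        (fun S hS hne => ?_) hb).le ?_
      · by_cases hk : ∃ k ∈ K₀, π k ∈ S
        · obtain ⟨k, k1, k2⟩ := hk
          obtain ⟨v, hv⟩ := Sym2.mem_iff_exists.mp (Sym2.out_fst_mem (π k))
          refine ⟨(π k).out.1, v, hv ▸ k2, fun c hc hu => ?_⟩
          obtain ⟨x, hx, rfl⟩ := mem_image.mp (hS hc)
          by_cases hxk : k = x
          · rw [← hxk, ← hv]
          · exact absurd hu (h2 k k1 x (mem_of_mem_erase hx) hxk _ (Sym2.out_fst_mem _))
        · refine hF' (π e) (h1 ▸ mem_image_of_mem π he0) S (fun c hc => ?_) hne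
          obtain ⟨x, hx, rfl⟩ := mem_image.mp (hS hc)
          have hx0 : x ∈ T \ K₀ := mem_sdiff.mpr ⟨mem_of_mem_erase hx, fun h => hk ⟨x, h, hc⟩⟩
          exact mem_erase.mpr ⟨fun h => htw ⟨x, hx0, ne_of_mem_erase hx, h⟩,
            h1 ▸ mem_image_of_mem π hx0⟩
      · have h9 := hcount T M h1 h8
        have : (T \ K₀) \ M ⊆ T.erase e \ K := fun x hx => by
          obtain ⟨x1, x2⟩ := mem_sdiff.mp hx
          exact mem_sdiff.mpr ⟨mem_erase.mpr ⟨fun h => x2 (h ▸ heM), (mem_sdiff.mp x1).1⟩,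
            fun h => (mem_union.mp (h5 h)).elim (mem_sdiff.mp x1).2 x2⟩
        have := card_le_card this
        omega

/-- The main acyclicity statement. -/
theorem main_ac (G : SimpleGraph V) {n q g : ℕ} (hg : (g : ℕ∞) ≤ G.egirth)
    (g1 : 2 * n + q ≤ g + 1) (g2 : n < g) (g3 : 4 * n + 4 * q < 3 * g + 2) (s : ℕ) : ∀ T K : Finset E, (T \ K).card = s → (∀ e ∈ T, π e ∈ G.edgeSet) → K ⊆ T →
      (∀ e ∈ K, ∀ f ∈ T, e ≠ f → ∀ v, v ∈ π e → v ∉ π f) → K.card ≤ n → Big π n T →
      Ac (min q (T.card - n)) (PK (Big π n) T K) := by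
  induction s with
  | zero =>
    intro T K hs _ hK _ h2 _
    have := card_le_card (sdiff_eq_empty_iff_subset.mp (card_eq_zero.mp hs))
    rw [show T.card - n = 0 by omega, Nat.min_zero]
    exact Ac.zero _
  | succ s ih =>
    intro T K hs hE hK h1 h2 hT
    have hne : (T \ K).Nonempty := card_pos.mp (by omega)
    have hd : ∀ e ∈ T, ¬ (π e).IsDiag := fun e he => G.not_isDiag_of_mem_edgeSet (hE e he)
    by_cases hKn : K.card = n
    · obtain ⟨x, hx⟩ := hne
      exact PK.done ⟨K, Subset.rfl, fun e he f hf => h1 e he f (hK hf), hKn⟩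
        ⟨hK, fun h => (mem_sdiff.mp hx).2 (h (mem_sdiff.mp hx).1)⟩ _
    by_cases hlf : Leaf ((T \ K).image π)
    · obtain ⟨u, v, huv, hleaf⟩ := hlf
      obtain ⟨e, he, hπ⟩ := mem_image.mp huv
      obtain ⟨heT, heK⟩ := mem_sdiff.mp he
      cases hr : min q (T.card - n) with
      | zero => exact Ac.zero _
      | succ r =>
        refine PK.step Big.mono heT heK hK ?_ fun hb => ?_
        · by_cases hiso : ∃ f ∈ T, e ≠ f ∧ ∃ x, x ∈ π e ∧ x ∈ π f
          · have hv : ∀ f ∈ T, (∃ x, x ∈ π e ∧ x ∈ π f) → f ∉ K ∧ v ∈ π f := by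
              rintro f hf ⟨x, x1, x2⟩
              have hfK : f ∉ K := fun hc => h1 f hc e heT (fun h => heK (h ▸ hc)) x x2 x1
              refine ⟨hfK, ?_⟩
              rw [hπ, Sym2.mem_iff] at x1
              rcases x1 with rfl | rfl
              · rw [hleaf _ (mem_image_of_mem π (mem_sdiff.mpr ⟨hf, hfK⟩)) x2]
                exact Sym2.mem_mk_right _ _
              · exact x2
            obtain ⟨f, hf, hef, hx⟩ := hiso
            refine PK.spare hf (by simp [hef.symm, (hv f hf hx).1]) (insert_subset heT hK) hT ?_ _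
            rintro a a1 a2 ⟨M, m1, m2, m3⟩
            by_cases hfM : f ∈ M
            · have hnm : ∀ g ∈ M.erase f, ∀ x, x ∈ π e → x ∉ π g := fun g hg x x1 x2 =>
                m2 f hfM g (mem_of_mem_erase hg) (ne_of_mem_erase hg).symm v (hv f hf hx).2
                  (hv g (a2 (m1 (mem_of_mem_erase hg))) ⟨x, x1, x2⟩).2
              have heM : e ∉ M.erase f := fun hc => hnm e hc u
                (by rw [hπ]; exact Sym2.mem_mk_left _ _) (by rw [hπ]; exact Sym2.mem_mk_left _ _)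
              refine ⟨insert e (M.erase f), insert_subset
                (mem_erase.mpr ⟨hef, a1 (mem_insert_self _ _)⟩) (erase_subset_erase _ m1),
                (m2.mono (erase_subset _ _)).insert hnm, ?_⟩
              rw [card_insert_of_notMem heM, card_erase_add_one hfM, m3]
            · exact ⟨M, subset_erase.mpr ⟨m1, hfM⟩, m2, m3⟩
          · rw [← hr]
            refine ih T (insert e K) (by rw [sdiff_insert, card_erase_of_mem he]; omega) hE
              (insert_subset heT hK) (fun x hx f hf hxf y y1 y2 => ?_)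
              (by rw [card_insert_of_notMem heK]; omega) hT
            rcases mem_insert.mp hx with rfl | hx'
            · exact hiso ⟨f, hf, hxf, y, y1, y2⟩
            · exact h1 x hx' f hf hxf y y1 y2
        · refine (ih (T.erase e) K (by
              rw [erase_sdiff_comm, card_erase_of_mem he]; omega)
            (fun x hx => hE x (mem_of_mem_erase hx)) (subset_erase.mpr ⟨hK, heK⟩)
            (fun x hx f hf => h1 x hx f (mem_of_mem_erase hf)) h2 hb).le ?_
          rw [card_erase_of_mem heT]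
          omega
    · obtain ⟨M, m1, m2, m3⟩ := hT
      rcases Nat.eq_zero_or_pos q with rfl | hq
      · rw [Nat.zero_min]; exact Ac.zero _
      refine Ac.le ?_ (min_le_left _ _)
      by_cases hB : (vs id ((T \ K).image π)).card ≤ 2 * n + 2 * q - 2
      · obtain ⟨c1, c2⟩ := single_cycle G hg (fun e he => by
          obtain ⟨x, hx, rfl⟩ := mem_image.mp he
          exact hE x (mem_sdiff.mp hx).1) (hne.image π) hlf (by omega)
        exact cycle_ac g1 g2 K _ c1 c2 _ T K M rfl rfl h1 Subset.rfl hK subset_union_left m1 m2 m3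
      · refine follow (B := 2 * n + 2 * q - 2) (T \ K) (fun W hW => ?_) q _ T K M
          (vs π M) rfl hd (fun p hp => Or.inl (mem_sdiff.mp hp)) hK m1 m2 m3
          Subset.rfl (by rw [card_vs m2 fun e he => hd e (m1 he)]; omega)
        obtain ⟨v, v1, v2⟩ : ∃ v ∈ vs id ((T \ K).image π), v ∉ W :=
          exists_mem_notMem_of_card_lt_card (by omega)
        obtain ⟨c, hc, hv⟩ := mem_vs.mp v1
        obtain ⟨p, hp, rfl⟩ := mem_image.mp hc
        exact ⟨p, hp, v, hv, v2⟩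

end Pool.Agent.Lib.MP_4a6af7_co.Lin
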