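import Mathlib
import Pool.Agent.Lib.MP_4a6af7_co.Lin.Game
import Pool.Agent.Lib.MP_4a6af7_co.Lin.Sperner

/-! From acyclicity to rainbow matchings. -/

set_option autoImplicit false

namespace Pool.Agent.Lib.MP_4a6af7_co.Lin

open Finset

open Classical in
theorem rainbow_of_ac {V : Type} {n : ℕ} (M : Fin n → Finset (Sym2 V))
    (hM : ∀ i, ∀ e ∈ M i, ∀ f ∈ M i, e ≠ f → ∀ v, v ∈ e → v ∉ f) (hn : ∀ i, n ≤ (M i).card)
    (hac : ∀ T : Finset (Fin n × Sym2 V), (∀ x ∈ T, x.2 ∈ M x.1) → Big Prod.snd n T →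
      2 * n ≤ T.card → Ac n (PK (Big Prod.snd n) T ∅)) :
    ∃ e : Fin n → Sym2 V, (∀ i, e i ∈ M i) ∧ ∀ i j, i ≠ j → ∀ v, v ∈ e i → v ∉ e j := by
  rcases Nat.eq_zero_or_pos n with rfl | hpos
  · exact ⟨fun i => i.elim0, fun i => i.elim0, fun i => i.elim0⟩
  by_contra hno
  let S : Finset (Fin n) → Finset (Fin n × Sym2 V) := fun J =>
    J.biUnion fun i => (M i).image (Prod.mk i)
  have hS : ∀ J x, x ∈ S J ↔ x.1 ∈ J ∧ x.2 ∈ M x.1 := by
    rintro J ⟨i, e⟩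
    simp [S]
  have hex : ∀ T : Finset (Fin n × Sym2 V), ∃ i, (∀ x ∈ T, x.2 ∈ M x.1) → Big Prod.snd n T →
      ∃ e ∈ T, ∃ f ∈ T, e ≠ f ∧ e.1 = i ∧ f.1 = i := by
    intro T
    by_cases h : (∀ x ∈ T, x.2 ∈ M x.1) ∧ Big Prod.snd n T
    · obtain ⟨h1, L, l1, l2, l3⟩ := h
      by_cases hinj : Set.InjOn Prod.fst (L : Set (Fin n × Sym2 V))
      · exfalso
        have hsurj := surjOn_of_injOn_of_card_le (s := L) (t := univ) Prod.fst
          (fun _ _ => mem_univ _) hinj (by simp [l3])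
        choose x hx hx' using fun i : Fin n => hsurj (show i ∈ ((univ : Finset (Fin n)) : Set _) by simp)
        refine hno ⟨fun i => (x i).2, fun i => by simpa only [hx' i] using h1 _ (l1 (hx i)),
          fun i j hij => ?_⟩
        exact l2 _ (hx i) _ (hx j) fun e => hij (by rw [← hx' i, ← hx' j, e])
      · unfold Set.InjOn at hinj
        push Not at hinj
        obtain ⟨e, he, f, hf, h2, h3⟩ := hinj
        exact ⟨e.1, fun _ _ => ⟨e, l1 he, f, l1 hf, h3, rfl, h2.symm⟩⟩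
    · exact ⟨⟨0, hpos⟩, fun h1 h2 => absurd ⟨h1, h2⟩ h⟩
  choose lab hlab using hex
  let D : Finset (Fin n) → Finset (Finset (Fin n × Sym2 V)) := fun J =>
    (S J).powerset.filter (Big Prod.snd n)
  have hD : ∀ J a, a ∈ D J ↔ a ⊆ S J ∧ Big Prod.snd n a := fun J a => by simp [D]
  obtain ⟨c, hc, himg⟩ := sperner (fun J => OC {a | a ∈ D J ∧ a.card < 2 * n}) lab n
    (fun J i => OC_mono fun a ha => ⟨(hD _ _).mpr ⟨fun x hx => by
      have := (hS _ _).mp (((hD _ _).mp ha.1).1 hx)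
      exact (hS _ _).mpr ⟨mem_of_mem_erase this.1, this.2⟩, ((hD _ _).mp ha.1).2⟩, ha.2⟩)
    (fun a ha => absurd ha (notMem_empty a))
    (fun J ⟨i, hi⟩ => by
      refine Ac.trunc (N := Big Prod.snd n) (D J)
        (fun x hx a ha hb => (hD _ _).mpr ⟨ha.1.trans ((hD _ _).mp hx).1, hb⟩)
        (fun x hx => ((hD _ _).mp hx).2)
        (fun x hx => hac x (fun y hy => ((hS _ _).mp (((hD _ _).mp hx).1 hy)).2) ((hD _ _).mp hx).2)
        (Ac.cone (v := S J) ?_ (fun a ha => Or.inl ((hD _ _).mp ha).1) n)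
      refine (hD _ _).mpr ⟨Subset.rfl, ?_⟩
      obtain ⟨L, l1, l2⟩ := exists_subset_card_eq (hn i)
      refine ⟨L.image (Prod.mk i), fun x hx => ?_, fun x hx y hy hxy => ?_, ?_⟩
      · obtain ⟨e, he, rfl⟩ := mem_image.mp hx
        exact (hS _ _).mpr ⟨hi, l1 he⟩
      · obtain ⟨e, he, rfl⟩ := mem_image.mp hx
        obtain ⟨f, hf, rfl⟩ := mem_image.mp hy
        exact hM i e (l1 he) f (l1 hf) fun h => hxy (by rw [h])
      · rw [card_image_of_injective _ (Prod.mk_right_injective i), l2])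
    (fun J c hc x hx => by
      obtain ⟨h1, h2⟩ := (hD _ _).mp (hc x hx).1.1
      obtain ⟨e, he, -, -, -, h3, -⟩ := hlab x (fun y hy => ((hS _ _).mp (h1 hy)).2) h2
      exact h3 ▸ ((hS _ _).mp (h1 he)).1)
    univ (by simp)
  have hcne : c.Nonempty := by
    obtain ⟨x, hx, -⟩ := mem_image.mp
      (show (⟨0, hpos⟩ : Fin n) ∈ c.image lab by rw [himg]; exact mem_univ _)
    exact ⟨x, hx⟩
  obtain ⟨T, hT, hmax⟩ := exists_max_image c card hcne
  have h1 : T.card < 2 * n := (hc T hT).1.2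
  have h2 := card_eq_sum_card_fiberwise (f := Prod.fst) (s := T) (t := univ) fun _ _ => mem_univ _
  have h3 : ∑ _i : Fin n, 2 ≤ ∑ i : Fin n, (T.filter fun x => x.1 = i).card := by
    refine sum_le_sum fun i _ => ?_
    obtain ⟨x, hx, rfl⟩ := mem_image.mp (himg ▸ mem_univ i : i ∈ c.image lab)
    have hxT : x ⊆ T := ((hc x hx).2 T hT).elim id fun h =>
      (eq_of_subset_of_card_le h (hmax x hx)).ge
    obtain ⟨g1, g2⟩ := (hD _ _).mp (hc x hx).1.1
    obtain ⟨e, he, f, hf, h3, h4, h5⟩ := hlab x (fun y hy => ((hS _ _).mp (g1 hy)).2) g2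
    exact one_lt_card.mpr ⟨e, mem_filter.mpr ⟨hxT he, h4⟩, f, mem_filter.mpr ⟨hxT hf, h5⟩, h3⟩
  simp only [sum_const, card_univ, Fintype.card_fin, smul_eq_mul] at h3
  omega

end Pool.Agent.Lib.MP_4a6af7_co.Lin
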