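import Mathlib
import Pool.Agent.Lib.MP_4a6af7_co.Lin.Main
import Pool.Agent.Lib.MP_4a6af7_co.Lin.Sharp

set_option autoImplicit false

namespace Pool.Agent.Lib.MP_4a6af7_co.Lin.Draft

open Pool.Agent.Lib.MP_4a6af7_co.Lin

/-- `n` matchings with at least `n` edges each, whose edges lie in a simple graph `G` (the same edge
of `G` may occur in many matchings), have a rainbow matching of size `n` as soon as the girth of `G`
is at least `3 n - 1`. -/
theorem result (V : Type) (G : SimpleGraph V) (n : ℕ) (M : Fin n → Finset (Sym2 V))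
    (hE : ∀ i, ∀ e ∈ M i, e ∈ G.edgeSet)
    (hM : ∀ i, ∀ e ∈ M i, ∀ f ∈ M i, e ≠ f → ∀ v, v ∈ e → v ∉ f)
    (hn : ∀ i, n ≤ (M i).card)
    (hg : ((3 * n - 1 : ℕ) : ℕ∞) ≤ G.egirth) :
    ∃ e : Fin n → Sym2 V, (∀ i, e i ∈ M i) ∧ ∀ i j, i ≠ j → ∀ v, v ∈ e i → v ∉ e j := by
  classical
  by_cases h : n ≤ 1
  · choose e he using fun i : Fin n =>
      Finset.card_pos.mp (lt_of_lt_of_le (lt_of_le_of_lt (Nat.zero_le _) i.2) (hn i))
    exact ⟨e, he, fun i j hij => absurd (Fin.ext (by omega)) hij⟩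
  refine rainbow_of_ac M hM hn fun T h1 h2 h3 => ?_
  exact (main_ac G (q := n) hg (by omega) (by omega) (by omega) _ T ∅ rfl
    (fun e he => hE _ _ (h1 e he)) (Finset.empty_subset _) (by simp) (by simp) h2).le (by omega)

end Pool.Agent.Lib.MP_4a6af7_co.Lin.Draft
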